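import Pool.Agent.Helper48.BK.StD

/-!
# Project PV (MP_d466de): almost all polynomials of degree `d` and height `H` take a prime value early,
uniformly for `d log H ≤ H^(1/3)`

In the proofs: `S = Sz H d = log H + d log(d + log H)`, `φ` = totient, a polynomial is given by its
coefficient vector `c : Fin (d+1) → ℤ`, `f_g = F + W g`.
Every statement lists the earlier ones it uses; they are hypotheses of the module.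
-/

set_option autoImplicit false

namespace Pool.Agent.Helper61.PV

open Finset
open Pool.Agent.Helper48.BK (th StSW)

/-- value at `m` of the polynomial with coefficient vector `c` -/
def ev {d : ℕ} (c : Fin (d + 1) → ℤ) (m : ℤ) : ℤ := ∑ i, c i * m ^ (i : ℕ)

/-- box of coefficient vectors `A i ≤ g i < A i + h i` -/
noncomputable def Bx {d : ℕ} (A : Fin (d + 1) → ℤ) (h : Fin (d + 1) → ℕ) : Finset (Fin (d + 1) → ℤ) :=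
  Fintype.piFinset fun i => Ico (A i) (A i + h i)

/-- `F + W g` -/
def lin {d : ℕ} (W : ℤ) (F g : Fin (d + 1) → ℤ) : Fin (d + 1) → ℤ := fun i => F i + W * g i

/-- `log n` if `n` is a positive prime, else `0` -/
noncomputable def thz (n : ℤ) : ℝ := th n.toNat

/-- typical size of the logarithm of the values -/
noncomputable def Sz (H d : ℕ) : ℝ := Real.log H + d * Real.log (d + Real.log H)

/-- all polynomials of degree `d` with coefficients in `[-H, H]` and positive leading coefficient -/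
noncomputable def Bxx (d H : ℕ) : Finset (Fin (d + 1) → ℤ) :=
  Bx (fun i => if (i : ℕ) < d then -(H : ℤ) else 1) (fun i => if (i : ℕ) < d then 2 * H + 1 else H)

/-- no fixed divisor -/
def NFD {d : ℕ} (c : Fin (d + 1) → ℤ) : Prop := ∀ n : ℕ, 1 < n → ∃ k : ℤ, ¬ (n : ℤ) ∣ ev c k

/-- length of the polynomial: total number of binary digits of the coefficients -/
def Len {d : ℕ} (c : Fin (d + 1) → ℤ) : ℕ := ∑ i, max 1 (Nat.size (c i).natAbs)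

/-- the polynomial itself -/
noncomputable def pol {d : ℕ} (c : Fin (d + 1) → ℤ) : Polynomial ℤ :=
  ∑ i, Polynomial.C (c i) * Polynomial.X ^ (i : ℕ)

/-- primes in a progression: `N` terms starting at `y`, difference `q`, everything `≤ x` -/
def APB (q N x : ℕ) (E : ℝ) : Prop := ∀ y : ℕ, 1 ≤ y → y + q * N ≤ x + 1 →
  |∑ u ∈ range N, th (y + q * u) -
    (if Nat.Coprime y q then (q : ℝ) * N / Nat.totient q else 0)| ≤ E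

/-! ### boxes -/

/-- TRA (translates of boxes).

Proof. `g ↦ g - b` injects `Bx A h` into the enlarged box; `a ↦ a + b` injects the shrunk box into `Bx A h`;
`G ≥ 0`. -/
def StTra : Prop := ∀ (d R : ℕ) (A b : Fin (d + 1) → ℤ) (h : Fin (d + 1) → ℕ)
  (G : (Fin (d + 1) → ℤ) → ℝ), (∀ g, 0 ≤ G g) → (∀ i, |b i| ≤ R) →
  (∑ g ∈ Bx A h, G g ≤ ∑ a ∈ Bx (fun i => A i - R) (fun i => h i + 2 * R), G (a + b)) ∧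
  ((∀ i, 2 * R ≤ h i) →
    ∑ a ∈ Bx (fun i => A i + R) (fun i => h i - 2 * R), G (a + b) ≤ ∑ g ∈ Bx A h, G g)

/-- CAR (cardinalities).

Proof. `Int.card_Ico`, `Fintype.card_piFinset`. `h + 2R ≤ h (1 + 2R/h₀) ≤ h exp(2R/h₀)`;
`∏ (1 - x_i) ≥ 1 - ∑ x_i` for `x_i ∈ [0,1]` (induction), `x_i = 2R/h_i ≤ 2R/h₀`. -/
def StCar : Prop := ∀ (d : ℕ) (A : Fin (d + 1) → ℤ) (h : Fin (d + 1) → ℕ),
  #(Bx A h) = ∏ i, h i ∧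
  ∀ (R : ℕ) (h₀ : ℝ), 0 < h₀ → (∀ i, h₀ ≤ h i) →
    (∏ i, ((h i + 2 * R : ℕ) : ℝ) ≤ Real.exp (2 * R * (d + 1) / h₀) * ∏ i, (h i : ℝ)) ∧
    (2 * R * ((d : ℝ) + 1) ≤ h₀ →
      (1 - 2 * R * (d + 1) / h₀) * ∏ i, (h i : ℝ) ≤ ∏ i, ((h i - 2 * R : ℕ) : ℝ))

/-- FIB (fibers of a box in the direction `i`).

Proof. Both sides count the pairs `(g, n)`, `g ∈ Bx A h`, `n ∈ Ico (A i) (A i + h i)`, with `Q (update g i n)` resp. with `Q g`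
(`Nat.card` of the interval is `h i`); the map `(g, n) ↦ (update g i n, g i)` is an involution of the set of all pairs which
exchanges the two conditions. (`Nat.card_eq_fintype_card` / `Finset.card_filter`, `Finset.sum_product'`, `Finset.sum_nbij'`,
`Fintype.mem_piFinset`; work with `open Classical`, `Nat.subtype_card` or `Nat.card_eq_card_toFinset`.) -/
def StFib : Prop := ∀ (d : ℕ) (A : Fin (d + 1) → ℤ) (h : Fin (d + 1) → ℕ) (i : Fin (d + 1))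
  (Q : (Fin (d + 1) → ℤ) → Prop),
  ∑ g ∈ Bx A h, Nat.card {n : ℤ // n ∈ Ico (A i) (A i + h i) ∧ Q (Function.update g i n)} =
    h i * Nat.card {g : Fin (d + 1) → ℤ // g ∈ Bx A h ∧ Q g}

/-- TOP (small leading coefficients are rare). From FIB.

Proof. FIB with `i = Fin.last d` and `Q c = ¬ κ H ≤ c_d`: the interval is `Ico 1 (1 + H)`, for every `g` at most `κ H` integers
`n ≥ 1` satisfy `n < κ H`. So `κ H #Bxx ≥ H · card`; for `H = 0` the box is empty. -/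
def StTop : Prop := ∀ (d H : ℕ) (κ : ℝ), 0 < κ →
  (Nat.card {c : Fin (d + 1) → ℤ // c ∈ Bxx d H ∧ ¬ κ * H ≤ c (Fin.last d)} : ℝ) ≤ κ * #(Bxx d H)

/-- DIG (digits in base `m`).

Proof. Induction on `d`. `d = 0`: `b = u`. Step: `b 0 = u % m`, the other digits are those of `u / m < m^d B`
(`Fin.cons`); `ev (Fin.cons a b) m = a + m ev b m` (`Fin.sum_univ_succ`). -/
def StDig : Prop := ∀ (d m B u : ℕ), 1 ≤ m → u < m ^ d * B → ∃ b : Fin (d + 1) → ℤ,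
  (∀ i, 0 ≤ b i) ∧ (∀ i : Fin (d + 1), (i : ℕ) < d → b i < m) ∧ b (Fin.last d) < B ∧ ev b m = u

/-- PDG (two values at once). From DIG.

Proof. `U` = digits of `u` in base `m₁` (degree `d`), `V` = digits of `v` in base `m₂` (degree `d - 1`), and the
polynomial `b = U + (X - m₁) V`, i.e. `b_i = U_i + V_{i-1} - m₁ V_i` (`V_{-1} = V_d = 0`; write `d = e + 1`,
`Fin.cons 0 V` and `Fin.snoc V 0`, `Fin.sum_univ_succ`, `Fin.sum_univ_castSucc`). Then `b(m₁) = U(m₁) = u`,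
`b(m₂) = U(m₂) + (m₂ - m₁) v`, `t u = U(m₂)` depends on `u` only (choose `U` for every `u` and `V` for every `v`).
As `m₁ ≤ m₂ ≤ B`: `U_i, V_i ∈ [0, B)`, so `-m₁ B ≤ b_i ≤ 2B`, and `|b_i| ≤ 2 m₂ B`. -/
def StPdg : Prop := ∀ (d m₁ m₂ B : ℕ), 1 ≤ d → 1 ≤ m₁ → m₁ ≤ m₂ → m₂ ≤ B →
  ∃ (t : ℕ → ℤ) (b : ℕ → ℕ → Fin (d + 1) → ℤ), ∀ u < m₁ ^ d * B, ∀ v < m₂ ^ (d - 1) * B,
    (∀ i, |b u v i| ≤ ((2 * m₂ * B : ℕ) : ℤ)) ∧ ev (b u v) m₁ = u ∧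
    ev (b u v) m₂ = t u + ((m₂ : ℤ) - m₁) * v

/-- SIZ (size of the values).

Proof. `|∑_{i<d} c_i m^i| ≤ 2H (m^d - 1)/(m - 1) ≤ κ H m^d / 2` as `m - 1 ≥ 4/κ` (geometric sum), and
`κ H m^d ≤ c_d m^d ≤ 2 H m^d`. -/
def StSiz : Prop := ∀ (d m : ℕ) (c : Fin (d + 1) → ℤ) (H κ : ℝ), 0 < κ → κ ≤ 1 → 0 ≤ H →
  (∀ i, |(c i : ℝ)| ≤ 2 * H) → κ * H ≤ c (Fin.last d) → 1 + 4 / κ ≤ m →
  κ * H * (m : ℝ) ^ d / 2 ≤ ev c m ∧ ((ev c m : ℤ) : ℝ) ≤ 4 * H * (m : ℝ) ^ d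

/-! ### primes -/

/-- APP. From the Siegel-Walfisz theorem `StSW` (proved: `Helper48/BK`, theorem `tSW`).

Proof. The numbers `n ≡ y mod q` with `y - 1 < n ≤ y - 1 + q N` are exactly `y + q u`, `u < N`. Difference of
`StSW` at `y - 1 + q N ≤ x` and at `y - 1`, residue `y`: the main terms differ by `q N / φ(q)` (or `0`). -/
def StApp : Prop := ∀ A B : ℕ, ∃ x₀ : ℕ, ∀ x q N : ℕ, x₀ ≤ x → 1 ≤ q → (q : ℝ) ≤ Real.log x ^ B →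
  APB q N x (2 * x / Real.log x ^ A)

/-- FMO (first moment, general form). From TRA, CAR, DIG.

Proof. For `u < N` let `b_u` be the digits (DIG), `|b_u i| ≤ R`, `ev b_u m = u`. By TRA,
`∑_g thz(f_g(m)) ≤ ∑_{a ∈ Bx⁺} th(y(a) + W u)` with `y(a) = ev (lin W F a) m ≥ 1`
(`ev (lin W F (a + b)) m = ev (lin W F a) m + W ev b m`). Sum over `u < N` and use `APB`; `y(a) ≡ ev F m mod W` is
coprime to `W`. The lower bound in the same way with `Bx⁻`. -/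
def StFmo : Prop := ∀ (d m B R W x : ℕ) (E : ℝ) (F A : Fin (d + 1) → ℤ) (h : Fin (d + 1) → ℕ),
  1 ≤ m → 1 ≤ B → 1 ≤ W → m ≤ R → B ≤ R → 0 ≤ E → APB W (m ^ d * B) x E →
  (∀ a : Fin (d + 1) → ℤ, (∀ i, A i - R ≤ a i ∧ a i < A i + h i + R) →
    1 ≤ ev (lin W F a) m ∧ ev (lin W F a) m + W * (m ^ d * B : ℕ) ≤ x + 1) →
  Nat.Coprime (ev F m).natAbs W →
  (((m ^ d * B : ℕ) : ℝ) * ∑ g ∈ Bx A h, thz (ev (lin W F g) m) ≤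
    (∏ i, ((h i + 2 * R : ℕ) : ℝ)) * ((W : ℝ) * (m ^ d * B : ℕ) / Nat.totient W + E)) ∧
  ((∀ i, 2 * R ≤ h i) →
    (∏ i, ((h i - 2 * R : ℕ) : ℝ)) * ((W : ℝ) * (m ^ d * B : ℕ) / Nat.totient W - E) ≤
      ((m ^ d * B : ℕ) : ℝ) * ∑ g ∈ Bx A h, thz (ev (lin W F g) m))

/-- SMO (pair moment, general form). From TRA, CAR, PDG.

Proof. `R = 2 m₂ B`, `q = m₂ - m₁`, `N₁ = m₁^d B`, `N₂ = m₂^(d-1) B`, `b(u,v)` from PDG. For all `u < N₁`, `v < N₂` by TRA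
`∑_g thz(f_g(m₁)) thz(f_g(m₂)) ≤ ∑_{a ∈ Bx⁺} th(y₁(a) + W u) th(y₂(a,u) + W q v)`, `y₁(a) = ev (lin W F a) m₁`,
`y₂(a,u) = ev (lin W F a) m₂ + W t(u) = ev (lin W F (a + b(u,0))) m₂`; both are `≥ 1` by the size hypothesis (`a + b(u,0)` is
in the box enlarged by `2R`). Sum over `v` (APB for `W q`, dropping the coprimality condition), then over `u`. -/
def StSmo : Prop := ∀ (d m₁ m₂ B W x₁ x₂ : ℕ) (E₁ E₂ : ℝ) (F A : Fin (d + 1) → ℤ)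
  (h : Fin (d + 1) → ℕ), 1 ≤ d → 1 ≤ m₁ → m₁ < m₂ → m₂ ≤ B → 1 ≤ W → 0 ≤ E₁ → 0 ≤ E₂ →
  APB W (m₁ ^ d * B) x₁ E₁ → APB (W * (m₂ - m₁)) (m₂ ^ (d - 1) * B) x₂ E₂ →
  (∀ a : Fin (d + 1) → ℤ,
    (∀ i, A i - (2 * (2 * m₂ * B) : ℕ) ≤ a i ∧ a i < A i + h i + (2 * (2 * m₂ * B) : ℕ)) →
    (1 ≤ ev (lin W F a) m₁ ∧ ev (lin W F a) m₁ + W * (m₁ ^ d * B : ℕ) ≤ x₁ + 1) ∧
    (1 ≤ ev (lin W F a) m₂ ∧
      ev (lin W F a) m₂ + ((W * (m₂ - m₁) : ℕ) : ℤ) * (m₂ ^ (d - 1) * B : ℕ) ≤ x₂ + 1)) →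
  ((m₁ ^ d * B : ℕ) : ℝ) * (m₂ ^ (d - 1) * B : ℕ) *
      ∑ g ∈ Bx A h, thz (ev (lin W F g) m₁) * thz (ev (lin W F g) m₂) ≤
    (∏ i, ((h i + 2 * (2 * m₂ * B) : ℕ) : ℝ)) *
      ((W : ℝ) * (m₁ ^ d * B : ℕ) / Nat.totient W + E₁) *
      (((W * (m₂ - m₁) : ℕ) : ℝ) * (m₂ ^ (d - 1) * B : ℕ) / Nat.totient (W * (m₂ - m₁)) + E₂)

/-- the conditions on a box of polynomials `F + W g` -/
def Cond (W H : ℕ) (κ : ℝ) {d : ℕ} (F A : Fin (d + 1) → ℤ) (h : Fin (d + 1) → ℕ) : Prop :=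
  (∀ i, 0 ≤ F i ∧ F i < W) ∧ (∀ i, κ * H ≤ W * h i) ∧
  (∀ i, -(H : ℤ) ≤ F i + W * A i ∧ F i + W * (A i + h i - 1) ≤ H) ∧
  κ * H ≤ ((F (Fin.last d) + W * A (Fin.last d) : ℤ) : ℝ)

/-- NUM (numerical lemma for MOM: the length `B` of the last digit).

Proof. `H` large throughout (in terms of `W, C, κ, δ`), `L = log H ≥ 1`, `Λ = L + d`, `h₀ = κ H / W`. `S ≤ 2 d L` because
`d + L ≤ H` (`S ≤ L + d log H`). Put `C₁ = max (2C) 1`, `M = max 1 ⌊C S⌋`: every `m` in question is `≤ M`, and `1 ≤ M ≤ C₁ d L`.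
By the assumption `M² (d+1) ≤ 2 C₁² d³ L² = 2 C₁² (d L)³/L ≤ 2 C₁² H / L`, so `δ h₀ = δ κ H/W ≥ 4 M² (d+1)` for `H` large. Let
`B = ⌊δ h₀ / (4 M (d+1))⌋`; the argument of the floor is `≥ M ≥ 1`, so `B ≥ M ≥ m`, which is (1), and
`B ≥ δ h₀/(8 M (d+1))` (`⌊x⌋ ≥ x/2` for `x ≥ 1`). (2): `8 m B (d+1) ≤ 8 M B (d+1) ≤ 2 δ h₀`. (3): `B δ Λ^4 ≥ δ² κ H Λ^4/(8 W M (d+1))`,
and `M ≤ C₁ d L ≤ C₁ Λ²`, `d + 1 ≤ Λ`, so this is `≥ δ² κ H Λ/(8 W C₁) ≥ 32 H` as `Λ ≥ L → ∞`. (4), (5): `m ≤ W m ≤ W M ≤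
W C₁ Λ² ≤ Λ³`. -/
def StNum : Prop := ∀ (W : ℕ) (C κ δ : ℝ), 1 ≤ W → 0 < C → 0 < κ → κ < 1 → 0 < δ → δ < 1 →
  ∃ H₀ : ℕ, ∀ H : ℕ, H₀ ≤ H → ∀ d : ℕ, 1 ≤ d → (d : ℝ) * Real.log H ≤ (H : ℝ) ^ (1 / 3 : ℝ) →
  ∃ B : ℕ, ∀ m : ℕ, 1 ≤ m → (m : ℝ) ≤ C * Sz H d →
    m ≤ B ∧
    4 * (2 * (m : ℝ) * B) * (d + 1) ≤ 2 * δ * (κ * H / W) ∧
    32 * (H : ℝ) ≤ B * (δ * (Real.log H + d) ^ 4) ∧
    (W : ℝ) * m ≤ (Real.log H + d) ^ 3 ∧ (m : ℝ) ≤ (Real.log H + d) ^ 3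

/-- SZ2 (sizes for MOM). From SIZ.

Proof. Put `R = 2 m B`; the hypothesis (`W ≥ 1`) gives `2 W R ≤ δ κ H/(d+1)·... ≤ δ κ H ≤ κ H/2 ≤ H/2`: indeed `4 (2 m B)(d+1) ≤ 2 δ κ H/W`
means `4 R (d+1) W ≤ 2 δ κ H`, so `2 R W ≤ δ κ H`. By `Cond` the coefficients of `lin W F a` satisfy
`F_i + W a_i ≥ F_i + W A_i - 2 R W ≥ -H - 2 R W ≥ -2H`, `F_i + W a_i ≤ F_i + W (A_i + h_i - 1) + 2 R W ≤ 2H`, and the last one is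
`≥ κ H - 2 R W ≥ κ H/2`. SIZ with `κ/2` (`1 + 4/(κ/2) = 1 + 8/κ ≤ m'`): `0 < (κ/2) H m'^d/2 ≤ ev` (an integer, so `≥ 1`) and
`ev ≤ 4 H m'^d`. Finally `W B ≤ 2 R W ≤ H` (`m ≥ 1`), so `ev + W m'^d B ≤ 5 H m'^d`. -/
def StSz2 : Prop := ∀ (W H d m m' B : ℕ) (κ δ : ℝ) (F A : Fin (d + 1) → ℤ) (h : Fin (d + 1) → ℕ),
  1 ≤ W → 1 ≤ H → 0 < κ → κ < 1 → 0 < δ → δ ≤ 1 / 2 → Cond W H κ F A h → 1 + 8 / κ ≤ m' → m' ≤ m →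
  4 * (2 * (m : ℝ) * B) * (d + 1) ≤ 2 * δ * (κ * H / W) →
  ∀ a : Fin (d + 1) → ℤ,
    (∀ i, A i - (2 * (2 * m * B) : ℕ) ≤ a i ∧ a i < A i + h i + (2 * (2 * m * B) : ℕ)) →
    1 ≤ ev (lin W F a) m' ∧
      ev (lin W F a) m' + W * (m' ^ d * B : ℕ) ≤ ((16 * H * m' ^ d : ℕ) : ℤ) + 1

/-- ERR (errors for MOM).

Proof. `Λ = log H + d ≥ 1`, `x = 16 H m^d`, `log x = log 16 + log H + d log m ≥ Λ` because `m ≥ 9 > e`. So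
`2x/log(x)^8 ≤ 32 H m^d/Λ^8 ≤ B δ Λ^4 m^d/Λ^8 = δ m^d B Λ^(-4)`, which is `≤ δ m^d B`, and `= δ m · m^(d-1) B Λ^(-4) ≤ δ m^(d-1) B`
because `m ≤ Λ³ ≤ Λ^4`. -/
def StErr : Prop := ∀ (H d m B : ℕ) (δ : ℝ), 3 ≤ H → 1 ≤ d → 9 ≤ m → 0 < δ →
  32 * (H : ℝ) ≤ B * (δ * (Real.log H + d) ^ 4) → (m : ℝ) ≤ (Real.log H + d) ^ 3 →
  Real.log H + d ≤ Real.log ((16 * H * m ^ d : ℕ) : ℝ) ∧
  2 * ((16 * H * m ^ d : ℕ) : ℝ) / Real.log ((16 * H * m ^ d : ℕ) : ℝ) ^ 8 ≤ δ * ((m ^ d * B : ℕ) : ℝ) ∧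
  2 * ((16 * H * m ^ d : ℕ) : ℝ) / Real.log ((16 * H * m ^ d : ℕ) : ℝ) ^ 8 ≤
    δ * ((m ^ (d - 1) * B : ℕ) : ℝ)

/-- MOM (moments). From FMO, SMO, CAR, SZ2, ERR, APP, NUM.

Proof. Let `δ₁ = min δ κ / 64`, `B` from NUM (with `δ₁`), `x_m = 16 H m^d`, `Λ = log H + d`. APP with exponents `A = 8`, `B = 3`
(`W ≤ Λ³ ≤ log(x_m)³`, `W q ≤ W m₂ ≤ Λ³`, `x_m ≥ H ≥ x₀`): `E_m = 2 x_m / log(x_m)^8`. `h₀ = κ H / W`. First moment: FMO with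
`R = 2 m B`; pair moment: SMO. By NUM `4 R (d+1) ≤ 2 δ₁ h₀` (`R = 2 m B` resp. `2 m₂ B`), so `2R(d+1)/h₀ ≤ δ₁`, and CAR gives
`∏ (h + 2R) ≤ e^{δ₁} ∏ h`, `∏ (h - 2R) ≥ (1 - δ₁) ∏ h` (and `2R ≤ h_i`, `h₀ ≤ h_i` by `Cond`). The size hypotheses are SZ2 (for SMO
with `m = m₂`, `m' = m₁` and `m' = m₂`; `W q m₂^(d-1) B ≤ W m₂^d B`; for FMO the box enlarged by `R` is contained in the one
enlarged by `2R`). ERR: `E_m ≤ δ₁ m^d B`, `E_{m₂} ≤ δ₁ m₂^(d-1) B`. As `W/φ(W) ≥ 1`, `Wq/φ(Wq) ≥ 1`: FMO gives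
`(1 - δ₁)² (W/φ(W)) ∏ h ≤ ∑ ≤ e^{δ₁}(1 + δ₁)(W/φ(W)) ∏ h`, SMO gives `e^{δ₁}(1+δ₁)² (W/φ(W)) (Wq/φ(Wq)) ∏ h`; `e^{δ₁} ≤ 1 + 2 δ₁`,
`(1 + 2δ₁)(1 + δ₁)² ≤ 1 + δ`, `(1-δ₁)² ≥ 1 - δ`. (`m ≥ 1 + 8/κ > 9`.) -/
def StMom : Prop := ∀ (W : ℕ) (C κ δ : ℝ), 1 ≤ W → 0 < C → 0 < κ → κ < 1 → 0 < δ → δ < 1 →
  ∃ H₀ : ℕ, ∀ H : ℕ, H₀ ≤ H → ∀ d : ℕ, 1 ≤ d → (d : ℝ) * Real.log H ≤ (H : ℝ) ^ (1 / 3 : ℝ) →
  ∀ (F A : Fin (d + 1) → ℤ) (h : Fin (d + 1) → ℕ), Cond W H κ F A h →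
  (∀ m : ℕ, 1 + 8 / κ ≤ m → (m : ℝ) ≤ C * Sz H d → Nat.Coprime (ev F m).natAbs W →
    (1 - δ) * ((W : ℝ) / Nat.totient W) * ∏ i, (h i : ℝ) ≤ ∑ g ∈ Bx A h, thz (ev (lin W F g) m) ∧
    ∑ g ∈ Bx A h, thz (ev (lin W F g) m) ≤ (1 + δ) * ((W : ℝ) / Nat.totient W) * ∏ i, (h i : ℝ)) ∧
  (∀ m₁ m₂ : ℕ, 1 + 8 / κ ≤ m₁ → m₁ < m₂ → (m₂ : ℝ) ≤ C * Sz H d →
    ∑ g ∈ Bx A h, thz (ev (lin W F g) m₁) * thz (ev (lin W F g) m₂) ≤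
      (1 + δ) * ((W : ℝ) / Nat.totient W) *
        (((W * (m₂ - m₁) : ℕ) : ℝ) / Nat.totient (W * (m₂ - m₁))) * ∏ i, (h i : ℝ))

/-- RHO (average of `n/φ(n)`).

Proof. `n/φ(n) = ∏_{p | n} (1 + 1/(p-1))` (`Nat.totient_mul_prod_primeFactors` or similar). The primes dividing `W (W k)` are
those of `W` and of `k`, so the summand is `(W/φ(W)) ∏_{p | k, p ∤ W} (1 + 1/(p-1)) ≤ (W/φ(W)) ∏_{p ∈ P, p | k} (1 + 1/(p-1))`,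
`P` = primes in `(w, J]`. Expanding (`Finset.prod_one_add` / `Finset.prod_add`) and exchanging,
`∑_{k ≤ J} ∏_{p ∈ P, p | k} (1 + 1/(p-1)) = ∑_{S ⊆ P} ∏_{p ∈ S} 1/(p-1) · #{k ≤ J : ∏_S p | k}
≤ J ∑_{S ⊆ P} ∏_{p ∈ S} 1/(p(p-1)) = J ∏_{p ∈ P} (1 + 1/(p(p-1))) ≤ J exp(∑_{n > w} 1/(n(n-1))) ≤ J e^{1/w}`. -/
def StRho : Prop := ∀ w W J : ℕ, 1 ≤ w → 1 ≤ W → (∀ p : ℕ, p.Prime → p ≤ w → p ∣ W) →
  ∑ k ∈ Icc 1 J, (((W * (W * k) : ℕ) : ℝ) / Nat.totient (W * (W * k))) ≤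
    Real.exp (1 / w) * J * ((W : ℝ) / Nat.totient W)

/-- numerical lemma for COR.

Proof. Take `K ≥ 1` with `K ≥ (16/η)(4 + log(4 W K))` (exists, `log K / K → 0`) and `J = ⌈K S⌉`. `S → ∞` as `H → ∞`, uniformly in `d`
(`S ≥ log H`). `J ≤ 2 K S`, and `M := D + W J ≤ D + 2 W K S ≤ 4 W K S`, so `C = 4 W K` works in (1). (2): `log(4 H M^d) = log 4 + log H +
d log M`, `log M ≤ log(4WK) + log S`, `S ≤ (d + log H)(1 + log(d + log H)) ≤ (d + log H)²`, so `log S ≤ 2 log(d + log H)`; `d ≤ S` because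
`log(d + log H) ≥ 1`; hence `log(4 H M^d) ≤ 2 + 2S + log(4WK) S ≤ (4 + log(4WK)) S ≤ (η/16) K S ≤ (η/16) J`. -/
def StNuc : Prop := ∀ (W D : ℕ) (η : ℝ), 1 ≤ W → 0 < η → ∃ (C : ℝ) (H₀ : ℕ), 0 < C ∧
  ∀ H : ℕ, H₀ ≤ H → ∀ d : ℕ, 1 ≤ d → ∃ J : ℕ, 1 ≤ J ∧ ((D + W * J : ℕ) : ℝ) ≤ C * Sz H d ∧
    Real.log (4 * H * ((D + W * J : ℕ) : ℝ) ^ d) ≤ η / 16 * J

/-- VAR (second moment method).

Proof. Let `Q g = ∑_{j<J} X j g`. `∑_g (Q g - J)² = ∑_g Q² - 2J ∑_g Q + J² P`, `∑_g Q ≥ J (1-δ) P`, and `∑_g Q² = ∑_j ∑_g X_j² +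
2 ∑_{i<j} ∑_g X_i X_j ≤ J (η/8) J P + 2 (1+δ) P ∑_{i<J} ∑_{k ∈ Icc 1 (J-1-i)} ρ k ≤ (η/8) J² P + 2 (1+δ) e P ∑_{i<J} (J-1-i)
≤ (η/8) J² P + (1+δ) e P J²`. On the set of the `g` with all `X j g = 0` we have `(Q - J)² = J²`. Divide by `J²`. -/
def StVar : Prop := ∀ (d : ℕ) (s : Finset (Fin (d + 1) → ℤ)) (X : ℕ → (Fin (d + 1) → ℤ) → ℝ) (J : ℕ)
  (η δ e : ℝ) (ρ : ℕ → ℝ), 1 ≤ J → 0 ≤ η → 0 ≤ δ → 0 ≤ e →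
  (∀ j < J, (1 - δ) * #s ≤ ∑ g ∈ s, X j g) →
  (∀ j < J, ∑ g ∈ s, X j g ^ 2 ≤ η / 8 * J * #s) →
  (∀ i j, i < j → j < J → ∑ g ∈ s, X i g * X j g ≤ (1 + δ) * ρ (j - i) * #s) →
  (∀ K : ℕ, ∑ k ∈ Icc 1 K, ρ k ≤ e * K) →
  (Nat.card {g : Fin (d + 1) → ℤ // g ∈ s ∧ ∀ j < J, X j g = 0} : ℝ) ≤
    (η / 8 + (1 + δ) * e - 1 + 2 * δ) * #s

/-- COR (one class modulo `W`). From MOM, RHO, NUC, SIZ, VAR, CAR.

Proof. We may assume `η < 1` (use `min η (1/2)`). `w = ⌈32/η⌉`, `W = w!`, `δ = η/64`, `D = ⌈1 + 8/κ⌉ + W`, `C`, `J` from NUC (`η`).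
Let `n₀ ∈ [⌈1+8/κ⌉, D)`, `n₀ ≡ m₀ mod W`, `m_j = n₀ + W j` for `j < J`; all `m_j ≤ D + W J ≤ C S`; `ev F m_j ≡ ev F m₀ mod W` is
coprime to `W`. Apply VAR with `s = Bx A h` (`#s = ∏ h`, CAR), `X_j(g) = (φ(W)/W) thz(f_g(m_j))`, `f_g = lin W F g`,
`ρ k = (φ(W)/W) (W(Wk)/φ(W(Wk)))`, `e = e^{1/w}`. First moment: MOM. Squares: as `0 < f_g(m_j) ≤ 4 H m_j^d` (SIZ; coefficients of `f_g`
are in `[-H,H]` for `g` in the box, the last one `≥ κH`), `thz ≤ log(4 H (D+WJ)^d) ≤ (η/16) J`, so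
`∑_g X_j² ≤ (φ(W)/W)² (η/16) J ∑ thz ≤ (φ(W)/W) (η/16) J (1+δ) #s ≤ (η/8) J #s`. Pairs `i < j`, `m_j - m_i = W (j-i)`: MOM. RHO gives
`∑_{k ≤ K} ρ k ≤ e^{1/w} K`. Result: `η/8 + (1+δ) e^{1/w} - 1 + 2δ ≤ η` because `e^{1/w} ≤ 1 + 2/w ≤ 1 + η/16`. For `g` in the exceptional
set all `m_j` are allowed `m`, so all `thz(f_g(m_j)) = 0`. -/
def StCor : Prop := ∀ η : ℝ, 0 < η → ∃ W : ℕ, 1 ≤ W ∧ ∀ κ : ℝ, 0 < κ → κ < 1 →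
  ∃ (C : ℝ) (H₀ : ℕ), 0 < C ∧ ∀ H : ℕ, H₀ ≤ H → ∀ d : ℕ, 1 ≤ d →
  (d : ℝ) * Real.log H ≤ (H : ℝ) ^ (1 / 3 : ℝ) →
  ∀ (F A : Fin (d + 1) → ℤ) (h : Fin (d + 1) → ℕ), Cond W H κ F A h →
  (∃ m₀ : ℕ, Nat.Coprime (ev F m₀).natAbs W) →
  (Nat.card {g : Fin (d + 1) → ℤ // g ∈ Bx A h ∧ ∀ m : ℕ, 1 + 8 / κ ≤ m →
    (m : ℝ) ≤ C * Sz H d → ¬ (ev (lin W F g) m).toNat.Prime} : ℝ) ≤ η * ∏ i, (h i : ℝ)

/-! ### the box of all polynomials -/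

/-- CRT.

Proof. For every prime `p | W` choose `k_p ∈ ℕ` with `p ∤ ev c k_p` (from `NFD` for `n = p`, reduce modulo `p`; `ev c` is
periodic modulo `p`). Chinese remainder theorem over the prime factors of `W`: `m₀ ≡ k_p mod p`. Then no prime divides both
`ev c m₀` and `W`. -/
def StCrt : Prop := ∀ (d : ℕ) (c : Fin (d + 1) → ℤ) (W : ℕ), 1 ≤ W → NFD c →
  ∃ m₀ : ℕ, Nat.Coprime (ev c m₀).natAbs W

/-- SA1 (one prime). From FIB.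

Proof. If `p` divides `c_0` and `c_1 + ... + c_d` (that is `(∑ i, c i) - c 0`): FIB for `i = Fin.last d` (`h i = H`): for fixed `g` the
`n ∈ [1,H]` with `p | (update g i n) 0 = g 0` (as `0 ≠ last`) and `p | ∑_{i ≠ 0} ...` are none if `p ∤ g 0`, and otherwise lie in one residue class
modulo `p`, at most `H/p + 1` of them. So `H · card ≤ (H/p + 1) #{g : p | g 0}`, and FIB for `i = 0` (`h i = 2H+1`): the multiples of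
`p` in `[-H,H]` are at most `2H/p + 1`, so `(2H+1) #{g : p | g 0} ≤ (2H/p + 1) #Bxx`. Hence the first bound
(`(2H/p+1)/(2H+1) ≤ 1/p + 1/(2H+1)`). The second one: FIB for `i = 0`. -/
def StSa1 : Prop := ∀ (d H : ℕ), 1 ≤ d → 1 ≤ H →
  (∀ p : ℕ, 1 ≤ p → (Nat.card {c : Fin (d + 1) → ℤ // c ∈ Bxx d H ∧ (p : ℤ) ∣ c 0 ∧
      (p : ℤ) ∣ (∑ i, c i) - c 0} : ℝ) ≤
    (1 / p + 1 / (2 * H + 1)) * (1 / p + 1 / H) * #(Bxx d H)) ∧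
  (Nat.card {c : Fin (d + 1) → ℤ // c ∈ Bxx d H ∧ c 0 = 0} : ℝ) ≤ 1 / (2 * H + 1) * #(Bxx d H)

/-- SA2 (numerical).

Proof. The sum is at most `∑_{p ≤ H} 1/p² + 2 (1 + log H)/H + 1/(2H)` (use `∑_{k ≤ H} 1/k ≤ 1 + log H`), and
`∑_p 1/p² ≤ 1/4 + 1/9 + ∑_{k≥2} 1/(2k+1)² ≤ 1/4 + 1/9 + 1/8 < 0.487` (`1/(2k+1)² ≤ (1/4)(1/k - 1/(k+1))`; every prime `≥ 5` is
`2k+1`, `k ≥ 2`). -/
def StSa2 : Prop := ∃ H₀ : ℕ, ∀ H : ℕ, H₀ ≤ H →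
  ∑ p ∈ (Icc 1 H).filter Nat.Prime, (1 / (p : ℝ) + 1 / (2 * H + 1)) * (1 / p + 1 / H) +
    1 / (2 * H + 1) ≤ 1 / 2

/-- STA (at least half of the polynomials have no fixed divisor). From SA1, SA2.

Proof. If not `NFD c`, some `n > 1`, so some prime `p`, divides all values, so `p | c_0 = ev c 0` and `p | ev c 1 - c_0 = c_1 + ... + c_d`.
If `p > H ≥ |c_0|` then `c_0 = 0`. So the complement is contained in the union of the sets of SA1; `2 · (1/2) #Bxx`. -/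
def StSta : Prop := ∃ H₀ : ℕ, ∀ H : ℕ, H₀ ≤ H → ∀ d : ℕ, 1 ≤ d →
  (#(Bxx d H) : ℝ) ≤ 2 * Nat.card {c : Fin (d + 1) → ℤ // c ∈ Bxx d H ∧ NFD c}

/-- IRR (irreducibility from one prime value).

Proof. `f = pol c`, `f(m) = ev c m = p` prime. If `f = g h`, then `|g(m)| = 1` or `|h(m)| = 1`, say `|g(m)| = 1`. Every complex
root `α` of `g` is a root of `f`, so `|α| ≤ 1 + max |c_i/c_d| ≤ 1 + 1/κ` (if `|α| > 1`: `c_d |α|^d ≤ H (|α|^d - 1)/(|α| - 1)`,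
or `Polynomial.cauchyBound`), and `|g(m)| = |lc| ∏ |m - α| ≥ (m - 1 - 1/κ)^(deg g) ≥ 2^(deg g)`. So `deg g = 0` and `g` is the
constant `g(m) = ±1`, a unit. `f` is not a unit because `f(m)` is prime. -/
def StIrr : Prop := ∀ (d : ℕ) (c : Fin (d + 1) → ℤ) (H κ : ℝ) (m : ℕ), 0 < κ → 0 < H →
  (∀ i, |(c i : ℝ)| ≤ H) → κ * H ≤ c (Fin.last d) → 3 + 1 / κ ≤ m → (ev c m).toNat.Prime →
  Irreducible (pol c)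

/-- LE1 (small coefficients are rare). From FIB.

Proof. Union bound over `i`; for `i < d` FIB: the `n ∈ [-H,H]` with `n² < H` are at most `2√H + 1 ≤ 3√H` of `2H + 1 ≥ 2H`, for `i = d`
at most `√H` of `H`. -/
def StLe1 : Prop := ∀ (d H : ℕ), 1 ≤ H →
  (Nat.card {c : Fin (d + 1) → ℤ // c ∈ Bxx d H ∧ ∃ i, c i ^ 2 < H} : ℝ) ≤
    2 * (d + 1) / √H * #(Bxx d H)

/-- LEN (the length is at least `S/2` for most polynomials). From LE1.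

Proof. If all `c_i² ≥ H`, then `2^{size |c_i|} > |c_i| ≥ √H` (`Nat.lt_size_self`), so `size |c_i| ≥ (1/2) log H / log 2 ≥ (1/2) log H` and
`Len c ≥ (1/2) (d+1) log H ≥ S/2`, because `d + log H ≤ H` for `H` large (`d ≤ d log H ≤ H^{1/3}`). The other `c` are at most
`2(d+1)/√H #Bxx ≤ 4 H^{1/3 - 1/2} #Bxx ≤ ε #Bxx`. -/
def StLen : Prop := ∀ ε : ℝ, 0 < ε → ∃ H₀ : ℕ, ∀ H : ℕ, H₀ ≤ H → ∀ d : ℕ, 1 ≤ d →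
  (d : ℝ) * Real.log H ≤ (H : ℝ) ^ (1 / 3 : ℝ) →
  (Nat.card {c : Fin (d + 1) → ℤ // c ∈ Bxx d H ∧ (Len c : ℝ) < Sz H d / 2} : ℝ) ≤
    ε * #(Bxx d H)

/-- PRI (primes have density zero in all long intervals).

Proof. Choose `z` with `∏_{p ≤ z} (1 - 1/p) < ε/4` (`∑ 1/p` diverges: `Nat.Primes.not_summable_one_div`), `P = ∏_{p ≤ z} p`. Among `P`
consecutive integers exactly `φ(P)` are coprime to `P`, and a prime `> z` is coprime to `P`: the number of primes is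
at most `z + (N/P + 1) φ(P) ≤ z + P + ε N/4`. -/
def StPri : Prop := ∀ ε : ℝ, 0 < ε → ∃ N₀ : ℕ, ∀ N : ℕ, N₀ ≤ N → ∀ y : ℤ,
  (#((Ico y (y + N)).filter (fun n => n.toNat.Prime)) : ℝ) ≤ ε * N

/-- NUL (numerical lemma for LOW).

Proof. `S ≤ (d + log H)²` and `S ≥ d + log H` for `H` large (`log(d + log H) ≥ 1`, `1 + log t ≤ t`). For `m ≤ √(cS)` the terms are at most
`1/(log H + d)` (`m ≥ 3`), total `≤ √(c S)/(d + log H) ≤ √c`. For `√(cS) < m ≤ cS`: `log m ≥ (1/2)(log(d + log H) - log(1/c)) ≥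
(1/4) log(d + log H)` for `H` large, so the terms are at most `4/S`, total `≤ 4c`. -/
def StNul : Prop := ∀ ε : ℝ, 0 < ε → ∃ (c : ℝ) (H₀ : ℕ), 0 < c ∧ c ≤ 1 ∧ ∀ H : ℕ, H₀ ≤ H → ∀ d : ℕ, 1 ≤ d →
  ∑ m ∈ (range (⌊c * Sz H d⌋₊ + 1)).filter (fun m => 3 ≤ m), 1 / (Real.log H + d * Real.log m) ≤ ε

/-- LO1 (bounded `m`). From FIB, PRI.

Proof. For each of the `m ≤ M`: FIB with `i = 0`: `ev (update g 0 n) m = n + (a number not depending on n)`, so the `n` in question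
correspond to primes in an interval of length `2H + 1`, at most `ε/(M+1) (2H+1)` of them by PRI. -/
def StLo1 : Prop := ∀ (M : ℕ) (ε : ℝ), 0 < ε → ∃ H₀ : ℕ, ∀ H : ℕ, H₀ ≤ H → ∀ d : ℕ, 1 ≤ d →
  (Nat.card {c : Fin (d + 1) → ℤ // c ∈ Bxx d H ∧ ∃ m : ℕ, m ≤ M ∧ (ev c m).toNat.Prime} : ℝ) ≤
    ε * #(Bxx d H)

/-- LO2 (the main range). From MOM, SIZ, NUL, CAR.

Proof. MOM with `W = 1`, `F = 0`, `C = 1`, `δ = 1/2`, `κ`, and the box `A_i = -H`, `h_i = 2H+1` (`i < d`), `A_d = ⌈κH⌉`,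
`h_d = H + 1 - ⌈κH⌉` (which is `≥ κ H`; it consists of the `c ∈ Bxx` with `κ H ≤ c_d`; `Cond` is clear):
`∑_g thz(ev g m) ≤ 2 ∏ h` for `1 + 8/κ ≤ m ≤ S`. If `ev g m` is prime then it is `≥ κ H m^d/2` (SIZ), so
`thz ≥ log(κ H m^d / 2) ≥ (1/2)(log H + d log m)` for `H ≥ (2/κ)²`: at most `4 ∏ h /(log H + d log m)` such `g`. Sum over
`m ≤ c' S` with NUL (`ε/4`, `c' = c ≤ 1`); `∏ h ≤ #Bxx`. -/
def StLo2 : Prop := ∀ κ ε : ℝ, 0 < κ → κ ≤ 1 / 4 → 0 < ε → ∃ (c' : ℝ) (H₀ : ℕ), 0 < c' ∧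
  ∀ H : ℕ, H₀ ≤ H → ∀ d : ℕ, 1 ≤ d → (d : ℝ) * Real.log H ≤ (H : ℝ) ^ (1 / 3 : ℝ) →
  (Nat.card {c : Fin (d + 1) → ℤ // c ∈ Bxx d H ∧ κ * H ≤ c (Fin.last d) ∧
    ∃ m : ℕ, 1 + 8 / κ ≤ m ∧ (m : ℝ) ≤ c' * Sz H d ∧ (ev c m).toNat.Prime} : ℝ) ≤ ε * #(Bxx d H)

/-- LOW (no prime value before `c S`). From LO1, LO2, TOP.

Proof. `κ = min (ε/4) (1/4)`: TOP. LO1 with `M = ⌈1 + 8/κ⌉`, `ε/4`; LO2 with `ε/4`. -/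
def StLow : Prop := ∀ ε : ℝ, 0 < ε → ∃ (c' : ℝ) (H₀ : ℕ), 0 < c' ∧ ∀ H : ℕ, H₀ ≤ H → ∀ d : ℕ, 1 ≤ d →
  (d : ℝ) * Real.log H ≤ (H : ℝ) ^ (1 / 3 : ℝ) →
  (Nat.card {c : Fin (d + 1) → ℤ // c ∈ Bxx d H ∧ ∃ m : ℕ, 1 ≤ m ∧ (m : ℝ) ≤ c' * Sz H d ∧
    (ev c m).toNat.Prime} : ℝ) ≤ ε * #(Bxx d H)

/-- BOX (polynomials in a class modulo `W` form a box).

Proof. `A_i = ⌈(-H - F_i)/W⌉` and `A_i + h_i - 1 = ⌊(H - F_i)/W⌋` for `i < d`; for `i = d` the lower end is `A_d = ⌈(K - F_d)/W⌉`,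
`K = max 1 ⌈κH⌉` (`c ≥ 1` and `c ≥ κ H` iff `c ≥ K`). `h_i ≥ 2H/W - 1 ≥ κ H/W`, `h_d ≥ (H - K)/W - 1 ≥ κ H/W` for `H` large
(`κ ≤ 1/4`). Membership: `-H ≤ F_i + W g_i ≤ H` iff `⌈(-H-F_i)/W⌉ ≤ g_i ≤ ⌊(H-F_i)/W⌋` (integers: `A_i = -((H + F_i)/W)`,
upper end `(H - F_i)/W` with `Int.ediv`, `Int.le_ediv_iff_mul_le`, `Int.lt_ediv_add_one_mul_self` ...). -/
def StBox : Prop := ∀ (W : ℕ) (κ : ℝ), 1 ≤ W → 0 < κ → κ ≤ 1 / 4 → ∃ H₀ : ℕ, ∀ H : ℕ, H₀ ≤ H →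
  ∀ (d : ℕ) (F : Fin (d + 1) → ℤ), (∀ i, 0 ≤ F i ∧ F i < W) →
  ∃ (A : Fin (d + 1) → ℤ) (h : Fin (d + 1) → ℕ), Cond W H κ F A h ∧
    ∀ g : Fin (d + 1) → ℤ, g ∈ Bx A h ↔
      (lin W F g ∈ Bxx d H ∧ κ * H ≤ ((lin W F g (Fin.last d) : ℤ) : ℝ))

/-- UPP (all classes together). From COR, CRT, BOX, TOP, CAR.

Proof. `η = ε/2`, `W` from COR, `κ = min (ε/4) (1/4)`, `C` from COR. The `c` with `c_d < κH` are at most `κ #Bxx` (TOP). Every `c` is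
`lin W F g` for exactly one pair with `0 ≤ F i < W` (`F i = c i % W`, `g i = c i / W`). For fixed `F` the `g` with `lin W F g ∈ Bxx`,
`κ H ≤ c_d` form the box `Bx A h` of BOX. If some `g` in it gives an `NFD` polynomial, CRT gives `m₀` with
`ev (lin W F g) m₀`, hence `ev F m₀`, coprime to `W`, and COR bounds the exceptional `g` by `η ∏ h = η #(Bx A h)` (CAR); otherwise there are
none. Sum over the vectors `F ∈ Bx 0 W`: the sum of the `#(Bx A h)` is at most `#Bxx` (disjoint subsets `{lin W F g : g ∈ Bx A h}`). -/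
def StUpp : Prop := ∀ ε : ℝ, 0 < ε → ∃ (κ C : ℝ) (H₀ : ℕ), 0 < κ ∧ κ ≤ 1 / 4 ∧ 0 < C ∧
  ∀ H : ℕ, H₀ ≤ H → ∀ d : ℕ, 1 ≤ d → (d : ℝ) * Real.log H ≤ (H : ℝ) ^ (1 / 3 : ℝ) →
  (Nat.card {c : Fin (d + 1) → ℤ // c ∈ Bxx d H ∧ NFD c ∧
    ¬ (κ * H ≤ c (Fin.last d) ∧ ∃ m : ℕ, 1 + 8 / κ ≤ m ∧ (m : ℝ) ≤ C * Sz H d ∧
      (ev c m).toNat.Prime)} : ℝ) ≤ ε * #(Bxx d H)

/-- FIN (the theorem). From UPP, STA, IRR, LEN, LOW.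

Proof. UPP, LEN, LOW with `ε/6` and STA: outside a set of at most `(ε/2) #Bxx ≤ ε #{NFD}` polynomials, `NFD c` implies that some
`m ∈ [1 + 8/κ, C S]` has `ev c m` prime, `Len c ≥ S/2`, no `m ≤ c' S` has; IRR with `3 + 1/κ ≤ 1 + 8/κ`. Take `C' = 2C`, `c = c'`. -/
def StFin : Prop := ∀ ε : ℝ, 0 < ε → ∃ (c' C : ℝ) (H₀ : ℕ), 0 < c' ∧ 0 < C ∧ ∀ H : ℕ, H₀ ≤ H → ∀ d : ℕ, 1 ≤ d →
  (d : ℝ) * Real.log H ≤ (H : ℝ) ^ (1 / 3 : ℝ) →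
  (Nat.card {c : Fin (d + 1) → ℤ // c ∈ Bxx d H ∧ NFD c ∧
    ¬ (Irreducible (pol c) ∧ ∃ m : ℕ, IsLeast {m : ℕ | 1 ≤ m ∧ (ev c m).toNat.Prime} m ∧
      c' * Sz H d ≤ m ∧ (m : ℝ) ≤ C * Sz H d ∧ (m : ℝ) ≤ C * Len c)} : ℝ) ≤
    ε * Nat.card {c : Fin (d + 1) → ℤ // c ∈ Bxx d H ∧ NFD c}

end Pool.Agent.Helper61.PV
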