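import Pool.Agent.Helper61.PV.M_Fin
import Pool.Agent.Helper48.BK.Top
import Pool.Agent.Helper7.PV.M_Tra
import Pool.Agent.Helper84.PV.M_Car
import Pool.Agent.Helper39.PV.M_Dig
import Pool.Agent.Helper80.PV.M_Fib
import Pool.Agent.Helper41.PV.M_Top
import Pool.Agent.Helper29.PV.M_Pdg
import Pool.Agent.Helper13.PV.M_Siz
import Pool.Agent.Helper70.PV.M_App
import Pool.Agent.Helper98.PV.M_Fmo
import Pool.Agent.Helper82.PV.M_Smo
import Pool.Agent.Helper2.PV.M_Num
import Pool.Agent.Helper2.PV.M_Sz2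
import Pool.Agent.Helper67.PV.M_Err
import Pool.Agent.Helper93.PV.M_Mom
import Pool.Agent.Helper79.PV.M_Rho
import Pool.Agent.Helper19.PV.M_Nuc
import Pool.Agent.Helper4.PV.M_Var
import Pool.Agent.Helper15.PV.M_Cor
import Pool.Agent.Helper17.PV.M_Crt
import Pool.Agent.Helper17.PV.M_Irr
import Pool.Agent.Helper77.PV.M_Sa1
import Pool.Agent.Helper9.PV.M_Sa2
import Pool.Agent.Helper94.PV.M_Sta
import Pool.Agent.Helper70.PV.M_Le1
import Pool.Agent.Helper72.PV.M_Len
import Pool.Agent.Helper84.PV.M_Pri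
import Pool.Agent.Helper29.PV.M_Nul
import Pool.Agent.Helper67.PV.M_Lo1
import Pool.Agent.Helper82.PV.M_Lo2
import Pool.Agent.Helper80.PV.M_Low
import Pool.Agent.Helper28.PV.M_Box
import Pool.Agent.Helper6.PV.M_Upp

/-!
# PV: assembly
-/

set_option autoImplicit false

namespace Pool.Agent.Helper61.PV

theorem tTra : StTra := Pool.Agent.Helper7.PV.hTra
theorem tCar : StCar := Pool.Agent.Helper84.PV.hCar
theorem tDig : StDig := Pool.Agent.Helper39.PV.hDig
theorem tFib : StFib := Pool.Agent.Helper80.PV.hFib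
theorem tTop : StTop := Pool.Agent.Helper41.PV.hTop tFib
theorem tPdg : StPdg := Pool.Agent.Helper29.PV.hPdg tDig
theorem tSiz : StSiz := Pool.Agent.Helper13.PV.hSiz
theorem tApp : StApp := Pool.Agent.Helper70.PV.hApp Pool.Agent.Helper48.BK.tSW
theorem tFmo : StFmo := Pool.Agent.Helper98.PV.hFmo tTra tCar tDig
theorem tSmo : StSmo := Pool.Agent.Helper82.PV.hSmo tTra tCar tPdg
theorem tNum : StNum := Pool.Agent.Helper2.PV.hNum
theorem tSz2 : StSz2 := Pool.Agent.Helper2.PV.hSz2 tSiz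
theorem tErr : StErr := Pool.Agent.Helper67.PV.hErr
theorem tMom : StMom := Pool.Agent.Helper93.PV.hMom tFmo tSmo tCar tSz2 tErr tApp tNum
theorem tRho : StRho := Pool.Agent.Helper79.PV.hRho
theorem tNuc : StNuc := Pool.Agent.Helper19.PV.hNuc
theorem tVar : StVar := Pool.Agent.Helper4.PV.hVar
theorem tCor : StCor := Pool.Agent.Helper15.PV.hCor tMom tRho tNuc tSiz tVar tCar
theorem tCrt : StCrt := Pool.Agent.Helper17.PV.hCrt
theorem tIrr : StIrr := Pool.Agent.Helper17.PV.hIrr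
theorem tSa1 : StSa1 := Pool.Agent.Helper77.PV.hSa1 tFib
theorem tSa2 : StSa2 := Pool.Agent.Helper9.PV.hSa2
theorem tSta : StSta := Pool.Agent.Helper94.PV.hSta tSa1 tSa2
theorem tLe1 : StLe1 := Pool.Agent.Helper70.PV.hLe1 tFib
theorem tLen : StLen := Pool.Agent.Helper72.PV.hLen tLe1
theorem tPri : StPri := Pool.Agent.Helper84.PV.hPri
theorem tNul : StNul := Pool.Agent.Helper29.PV.hNul
theorem tLo1 : StLo1 := Pool.Agent.Helper67.PV.hLo1 tFib tPri
theorem tLo2 : StLo2 := Pool.Agent.Helper82.PV.hLo2 tMom tSiz tNul tCar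
theorem tLow : StLow := Pool.Agent.Helper80.PV.hLow tLo1 tLo2 tTop
theorem tBox : StBox := Pool.Agent.Helper28.PV.hBox
theorem tUpp : StUpp := Pool.Agent.Helper6.PV.hUpp tCor tCrt tBox tTop tCar
theorem tFin : StFin := hFin tUpp tSta tIrr tLen tLow

end Pool.Agent.Helper61.PV
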