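import Pool.Agent.Helper61.PV.St

set_option autoImplicit false

namespace Pool.Agent.Helper61.PV

open Finset

private theorem ncard_eq {d : ℕ} (s : Finset (Fin (d + 1) → ℤ)) (P : (Fin (d + 1) → ℤ) → Prop)
    [DecidablePred P] : Nat.card {c : Fin (d + 1) → ℤ // c ∈ s ∧ P c} = #(s.filter P) :=
  Nat.subtype_card _ (fun c => by simp)

theorem hFin (hUpp : StUpp) (hSta : StSta) (hIrr : StIrr) (hLen : StLen) (hLow : StLow) : StFin := by
  classical
  intro ε hε
  obtain ⟨κ, C, H₁, hκ0, hκ1, hC, h1⟩ := hUpp (ε / 6) (by positivity)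
  obtain ⟨H₂, h2⟩ := hLen (ε / 6) (by positivity)
  obtain ⟨c', H₃, hc', h3⟩ := hLow (ε / 6) (by positivity)
  obtain ⟨H₄, h4⟩ := hSta
  refine ⟨c', 2 * C, max (max H₁ H₂) (max (max H₃ H₄) 1), hc', by positivity, ?_⟩
  intro H hH d hd hdH
  have g1 := h1 H (le_trans (le_trans (le_max_left _ _) (le_max_left _ _)) hH) d hd hdH
  have g2 := h2 H (le_trans (le_trans (le_max_right _ _) (le_max_left _ _)) hH) d hd hdH
  have g3 := h3 H (le_trans (le_trans (le_trans (le_max_left _ _) (le_max_left _ _))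
    (le_max_right _ _)) hH) d hd hdH
  have g4 := h4 H (le_trans (le_trans (le_trans (le_max_right _ _) (le_max_left _ _))
    (le_max_right _ _)) hH) d hd
  have hH1 : 1 ≤ H := le_trans (le_trans (le_max_right _ _) (le_max_right _ _)) hH
  have hHr : (0 : ℝ) < H := by exact_mod_cast hH1
  rw [ncard_eq] at g1 g2 g3
  rw [ncard_eq (Bxx d H) (fun c => NFD c)] at g4 ⊢
  rw [ncard_eq]
  set T1 := (Bxx d H).filter (fun c => NFD c ∧
    ¬ (κ * H ≤ c (Fin.last d) ∧ ∃ m : ℕ, 1 + 8 / κ ≤ m ∧ (m : ℝ) ≤ C * Sz H d ∧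
      (ev c m).toNat.Prime)) with hT1
  set T2 := (Bxx d H).filter (fun c => (Len c : ℝ) < Sz H d / 2) with hT2
  set T3 := (Bxx d H).filter (fun c => ∃ m : ℕ, 1 ≤ m ∧ (m : ℝ) ≤ c' * Sz H d ∧
    (ev c m).toNat.Prime) with hT3
  have hsub : (Bxx d H).filter (fun c => NFD c ∧
    ¬ (Irreducible (pol c) ∧ ∃ m : ℕ, IsLeast {m : ℕ | 1 ≤ m ∧ (ev c m).toNat.Prime} m ∧
      c' * Sz H d ≤ m ∧ (m : ℝ) ≤ 2 * C * Sz H d ∧ (m : ℝ) ≤ 2 * C * Len c)) ⊆ T1 ∪ (T2 ∪ T3) := by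
    intro c hc
    rw [mem_filter] at hc
    obtain ⟨hcB, hcN, hcn⟩ := hc
    by_contra hcon
    rw [mem_union, mem_union, not_or, not_or] at hcon
    obtain ⟨k1, k2, k3⟩ := hcon
    apply hcn
    have k1' : κ * H ≤ c (Fin.last d) ∧ ∃ m : ℕ, 1 + 8 / κ ≤ m ∧ (m : ℝ) ≤ C * Sz H d ∧
        (ev c m).toNat.Prime := by
      by_contra hno
      exact k1 (mem_filter.2 ⟨hcB, hcN, hno⟩)
    have k2' : Sz H d / 2 ≤ (Len c : ℝ) := by
      by_contra hno
      exact k2 (mem_filter.2 ⟨hcB, not_le.1 hno⟩)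
    have k3' : ¬ ∃ m : ℕ, 1 ≤ m ∧ (m : ℝ) ≤ c' * Sz H d ∧ (ev c m).toNat.Prime :=
      fun hno => k3 (mem_filter.2 ⟨hcB, hno⟩)
    obtain ⟨kl, m₁, hm1, hm2, hm3⟩ := k1'
    have h8 : 0 < 8 / κ := by positivity
    have hm1' : (1 : ℝ) ≤ m₁ := by linarith
    have hm1n : 1 ≤ m₁ := by exact_mod_cast hm1'
    have hne : ∃ m : ℕ, 1 ≤ m ∧ (ev c m).toNat.Prime := ⟨m₁, hm1n, hm3⟩
    have hfs := Nat.find_spec hne
    have hfm : Nat.find hne ≤ m₁ := Nat.find_min' hne ⟨hm1n, hm3⟩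
    have hfr : ((Nat.find hne : ℕ) : ℝ) ≤ m₁ := by exact_mod_cast hfm
    have hS : 0 < Sz H d := by
      by_contra hno
      have : C * Sz H d ≤ 0 := mul_nonpos_of_nonneg_of_nonpos hC.le (not_lt.1 hno)
      linarith
    refine ⟨?_, Nat.find hne, ⟨hfs, fun m hm => Nat.find_min' hne hm⟩, ?_, ?_, ?_⟩
    · apply hIrr d c H κ m₁ hκ0 hHr _ kl _ hm3
      · intro i
        have hi := Fintype.mem_piFinset.1 hcB i
        rw [mem_Ico] at hi
        rw [← Int.cast_abs]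
        have : |c i| ≤ (H : ℤ) := by
          rw [abs_le]
          by_cases hid : (i : ℕ) < d
          · simp only [hid, if_true] at hi
            push_cast at hi
            constructor <;> linarith [hi.1, hi.2]
          · simp only [hid, if_false] at hi
            constructor <;> linarith [hi.1, hi.2]
        exact_mod_cast this
      · have : 3 + 1 / κ ≤ 1 + 8 / κ := by
          have h4k : 4 ≤ 1 / κ := by
            rw [le_div_iff₀ hκ0]; linarith
          have : 8 / κ = 8 * (1 / κ) := by ring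
          rw [this]; linarith
        linarith
    · by_contra hno
      exact k3' ⟨Nat.find hne, hfs.1, (not_le.1 hno).le, hfs.2⟩
    · nlinarith
    · have : C * Sz H d ≤ 2 * C * Len c := by nlinarith
      linarith
  have hcard := (card_le_card hsub).trans ((card_union_le _ _).trans
    (Nat.add_le_add_left (card_union_le _ _) _))
  have hcr : (#((Bxx d H).filter (fun c => NFD c ∧
    ¬ (Irreducible (pol c) ∧ ∃ m : ℕ, IsLeast {m : ℕ | 1 ≤ m ∧ (ev c m).toNat.Prime} m ∧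
      c' * Sz H d ≤ m ∧ (m : ℝ) ≤ 2 * C * Sz H d ∧ (m : ℝ) ≤ 2 * C * Len c))) : ℝ) ≤
      #T1 + (#T2 + #T3) := by exact_mod_cast hcard
  nlinarith

end Pool.Agent.Helper61.PV
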