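import Pool.Agent.Helper61.PV.St

/-!
# PV: from coefficient vectors to polynomials
-/

set_option autoImplicit false

namespace Pool.Agent.Helper61.PV

open Finset Polynomial

theorem coeff_pol {d : ℕ} (c : Fin (d + 1) → ℤ) (k : ℕ) :
    (pol c).coeff k = if h : k < d + 1 then c ⟨k, h⟩ else 0 := by
  unfold pol
  rw [finset_sum_coeff]
  simp only [coeff_C_mul, coeff_X_pow]
  by_cases h : k < d + 1
  · rw [dif_pos h, Finset.sum_eq_single (⟨k, h⟩ : Fin (d + 1))]
    · simp
    · intro b _ hb
      have : ¬ k = (b : ℕ) := fun hk => hb (Fin.ext hk.symm)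
      simp [this]
    · intro hn; exact absurd (Finset.mem_univ _) hn
  · rw [dif_neg h]
    apply Finset.sum_eq_zero
    intro b _
    have : ¬ k = (b : ℕ) := fun hk => h (hk ▸ b.2)
    simp [this]

theorem eval_pol {d : ℕ} (c : Fin (d + 1) → ℤ) (m : ℤ) : (pol c).eval m = ev c m := by
  unfold pol ev
  rw [eval_finset_sum]
  simp

theorem mem_Bxx {d H : ℕ} (c : Fin (d + 1) → ℤ) :
    c ∈ Bxx d H ↔ 0 < c (Fin.last d) ∧ ∀ i, |c i| ≤ (H : ℤ) := by
  unfold Bxx Bx
  rw [Fintype.mem_piFinset]
  constructor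
  · intro h
    constructor
    · have := h (Fin.last d)
      simp only [Fin.val_last, lt_irrefl, if_false, mem_Ico] at this
      linarith [this.1]
    · intro i
      have hi := h i
      rw [mem_Ico] at hi
      rw [abs_le]
      by_cases hid : (i : ℕ) < d
      · simp only [hid, if_true] at hi
        push_cast at hi
        constructor <;> linarith [hi.1, hi.2]
      · simp only [hid, if_false] at hi
        constructor <;> linarith [hi.1, hi.2]
  · rintro ⟨h1, h2⟩ i
    have hi := abs_le.1 (h2 i)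
    rw [mem_Ico]
    by_cases hid : (i : ℕ) < d
    · simp only [hid, if_true]
      push_cast
      constructor <;> linarith [hi.1, hi.2]
    · simp only [hid, if_false]
      have : i = Fin.last d := Fin.ext (by have := i.2; simp only [Fin.val_last]; omega)
      subst this
      constructor <;> linarith [hi.1, hi.2]

theorem natDegree_pol {d : ℕ} (c : Fin (d + 1) → ℤ) (h : c (Fin.last d) ≠ 0) :
    (pol c).natDegree = d := by
  apply natDegree_eq_of_le_of_coeff_ne_zero
  · rw [natDegree_le_iff_coeff_eq_zero]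
    intro k hk
    rw [coeff_pol, dif_neg (by omega)]
  · rw [coeff_pol, dif_pos (by omega)]
    exact h

/-- the family of polynomials -/
def Fam (d H : ℕ) : Set ℤ[X] :=
  {f | f.natDegree = d ∧ 0 < f.leadingCoeff ∧ ∀ k, |f.coeff k| ≤ (H : ℤ)}

theorem card_fam (d H : ℕ) (P : ℤ[X] → Prop) (Q : (Fin (d + 1) → ℤ) → Prop)
    (hPQ : ∀ c ∈ Bxx d H, (Q c ↔ P (pol c))) :
    Nat.card {f : ℤ[X] // f ∈ Fam d H ∧ P f} = Nat.card {c : Fin (d + 1) → ℤ // c ∈ Bxx d H ∧ Q c} := by
  symm
  have hmem : ∀ c ∈ Bxx d H, pol c ∈ Fam d H := by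
    intro c hc
    obtain ⟨h1, h2⟩ := (mem_Bxx c).1 hc
    have hd := natDegree_pol c h1.ne'
    refine ⟨hd, ?_, ?_⟩
    · unfold leadingCoeff
      rw [hd, coeff_pol, dif_pos (by omega)]
      exact h1
    · intro k
      rw [coeff_pol]
      split_ifs with hk
      · exact h2 _
      · simp
  apply Nat.card_eq_of_bijective (fun c : {c : Fin (d + 1) → ℤ // c ∈ Bxx d H ∧ Q c} =>
    (⟨pol c.1, hmem c.1 c.2.1, (hPQ c.1 c.2.1).1 c.2.2⟩ : {f : ℤ[X] // f ∈ Fam d H ∧ P f}))
  constructor
  · rintro ⟨a, ha⟩ ⟨b, hb⟩ hab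
    simp only [Subtype.mk.injEq] at hab ⊢
    funext i
    have h1 := congrArg (fun f : ℤ[X] => f.coeff i) hab
    simp only [coeff_pol] at h1
    rw [dif_pos i.2, dif_pos i.2] at h1
    exact h1
  · rintro ⟨f, ⟨h1, h2, h3⟩, hP⟩
    have hf : pol (fun i : Fin (d + 1) => f.coeff i) = f := by
      ext k
      rw [coeff_pol]
      split_ifs with hk
      · rfl
      · symm
        apply coeff_eq_zero_of_natDegree_lt
        omega
    have hm : (fun i : Fin (d + 1) => f.coeff i) ∈ Bxx d H := by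
      rw [mem_Bxx]
      refine ⟨?_, fun i => h3 i⟩
      have : f.leadingCoeff = f.coeff d := by unfold leadingCoeff; rw [h1]
      rw [this] at h2
      simpa using h2
    refine ⟨⟨fun i => f.coeff i, hm, (hPQ _ hm).2 (by rw [hf]; exact hP)⟩, ?_⟩
    simp only [Subtype.mk.injEq]
    exact hf

end Pool.Agent.Helper61.PV
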